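import Pool.Agent.N550.TS.All2
import Pool.Agent.L0h29.BL.Cv

/-!
# Bi-Lipschitz homeomorphisms of closed 4-manifolds with invertible derivatives

Part 1. Let `M`, `N` be smooth 4-manifolds and let `G : M → N` be a homeomorphism which is a local
diffeomorphism off a finite set `S`. Then `G` can be changed, inside any given neighbourhood of `S`,
to a homeomorphism `G'` which is a local diffeomorphism off a finite set with at most as many points,
and which is bi-Lipschitz near all points and differentiable with invertible derivative at all points
(also at the exceptional ones).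

Part 2. Let `N` be a closed smooth 4-manifold with a smooth handle decomposition (with one 0-handle)
such that the union of the handles of index three and four is contained in an open cell of `N`. Every
closed simply connected smooth 4-manifold `N` has this property: the union of the handles of index
three and four is a regular neighbourhood of a graph, which is null-homotopic, so isotopic into a
ball. Let `M` be a closed smooth 4-manifold. Then the following conditions are equivalent:

* there is a homeomorphism `M → N` of class `C^∞` (with no condition on the rank of its derivative or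
  on its inverse);
* there is a homeomorphism `M → N` which is of class `C^∞` near all points off a set whose image has
  one-dimensional Hausdorff measure zero;
* there is a bi-Lipschitz homeomorphism `M → N` which is a local diffeomorphism at all points but
  one, and which is differentiable with invertible derivative at this point too.

For `N` simply connected the closed smooth 4-manifolds `M` in question all have the intersection form
of `N`; none of them is known to be different from `N`.

The proof of part 1: by an inversion, an isolated singular point of a homeomorphism of `ℝ⁴` becomes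
the point at infinity, and by a modification near a regular point the homeomorphism is, up to a
diffeomorphism, the restriction of a homeomorphism with compact support with two singular points,
with opposite germs. Infinitely many rescaled copies of it and of its inverse, with disjoint supports
along a segment, are arranged such that the singular points cancel in pairs (an Eilenberg-Mazur
swindle), except for the first one and for the limit point. The copies are arranged such that
their diameters are small with respect to their distances to the limit point, and there are only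
finitely many patterns up to similarity; so the limit point is a point of differentiability, and the
homeomorphism is bi-Lipschitz near it.
-/

set_option autoImplicit false

open Set Filter Topology Metric Function
open scoped Manifold ContDiff

noncomputable section

namespace Pool.Agent.L0h29.Old.BiLipschitz

/-- `ℝ⁴` -/
abbrev R4 : Type := EuclideanSpace ℝ (Fin 4)

section defs

variable {M N : Type} [TopologicalSpace M] [ChartedSpace R4 M] [TopologicalSpace N]
  [ChartedSpace R4 N]

/-- `f` is of class `C^∞` near `x` (no condition is imposed on the derivative) -/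
def SmoothNear (f : M → N) (x : M) : Prop := ∀ᶠ y in 𝓝 x, ContMDiffAt (𝓡 4) (𝓡 4) ∞ f y

/-- `f` is of class `C^∞` (no condition is imposed on the derivative) -/
def SmoothEverywhere (f : M → N) : Prop := ContMDiff (𝓡 4) (𝓡 4) ∞ f

/-- `f` is a local diffeomorphism (of class `C^∞`) at `x` -/
def LocDiff (f : M → N) (x : M) : Prop := IsLocalDiffeomorphAt (𝓡 4) (𝓡 4) ∞ f x

/-- `G` is a local diffeomorphism at all points but one -/
def LocDiffOffPoint (G : M → N) : Prop := ∃ x₀ : M, ∀ x, x ≠ x₀ → LocDiff G x

/-- `f` in the preferred charts at `x` and at `f x` -/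
def inCharts (f : M → N) (x : M) : R4 → R4 :=
  fun y => chartAt R4 (f x) (f ((chartAt R4 x).symm y))

/-- `f` is differentiable at `x` with invertible derivative (`f` is written in the preferred charts
at `x` and at `f x`) -/
def InvertibleDeriv (f : M → N) (x : M) : Prop :=
  ∃ A : R4 ≃L[ℝ] R4, HasFDerivAt (inCharts f x) (A : R4 →L[ℝ] R4) (chartAt R4 x x)

/-- the distance of `y` and `y'` in the preferred chart at `x` (for `y` and `y'` near `x`) -/
def chartDist (x y y' : M) : ℝ := dist (chartAt R4 x y) (chartAt R4 x y')

/-- `f` is bi-Lipschitz near `x` (in the preferred charts at `x` and at `f x`) -/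
def BiLipschitzNear (f : M → N) (x : M) : Prop :=
  ∃ C : ℝ, ∀ᶠ p : M × M in 𝓝 (x, x),
    chartDist (f x) (f p.1) (f p.2) ≤ C * chartDist x p.1 p.2 ∧
      chartDist x p.1 p.2 ≤ C * chartDist (f x) (f p.1) (f p.2)

/-- `G` is, at all points, bi-Lipschitz and differentiable with invertible derivative -/
def BiLipschitzWithInvertibleDeriv (G : M → N) : Prop :=
  ∀ x, InvertibleDeriv G x ∧ BiLipschitzNear G x

/-- a set with one-dimensional Hausdorff measure zero (in the preferred charts) -/
def LengthZero (B : Set N) : Prop :=
  ∀ x₀ : N, MeasureTheory.Measure.hausdorffMeasure 1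
    (chartAt R4 x₀ '' ((chartAt R4 x₀).source ∩ B) : Set R4) = 0

/-- `κ` is a diffeomorphism of `N` -/
def IsDiffeo (κ : N → N) : Prop := Bijective κ ∧ ∀ x, LocDiff κ x

/-- `c` is a diffeomorphism of `ℝ⁴` with an open subset of `N` -/
def IsOpenCell (c : R4 → N) : Prop := Injective c ∧ ∀ z, LocDiff c z

/-- the square of the norm of the first `m` coordinates -/
def core (m : ℕ) (z : R4) : ℝ := ∑ i : Fin 4, if (i : ℕ) < m then z i ^ 2 else 0

/-- the square of the norm of the last `4 - m` coordinates -/
def cocore (m : ℕ) (z : R4) : ℝ := ∑ i : Fin 4, if (i : ℕ) < m then 0 else z i ^ 2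

/-- `h` is a handle of index `m` attached to `Y` (with an open collar of its attaching region inside
`Y`): an open embedding of `ℝ^m × ℝ^(4-m)` for which exactly the points with first component of norm
at least one are mapped to `Y`. -/
def IsHandle (m : ℕ) (Y : Set N) (h : R4 → N) : Prop :=
  IsOpenCell h ∧ ∀ z, h z ∈ Y ↔ 1 ≤ core m z

/-- the core disc of a handle of index `m` -/
def coreDisc (m : ℕ) (h : R4 → N) : Set N := h '' {z | core m z ≤ 1 ∧ cocore m z = 0}

end defs

/-- A handle decomposition of `N` with one 0-handle, with any number of 1-handles and 2-handles, and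
with an open cell `c` which contains the handles of index at least three. -/
structure HighHandlesInCell (N : Type) [TopologicalSpace N] [ChartedSpace R4 N] where
  /-- the chart of the 0-handle, which is the image of the closed unit ball -/
  b : R4 → N
  b_cell : IsOpenCell b
  /-- the number of 1-handles -/
  a : ℕ
  /-- the 1-handles, attached to the 0-handle -/
  l : Fin a → R4 → N
  l_handle : ∀ i, IsHandle 1 (b '' closedBall 0 1) (l i)
  l_disjoint : ∀ i j, i ≠ j → Disjoint (range (l i)) (range (l j))
  /-- the union of the handles of index at most one (with rounded corners) -/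
  K : Set N
  K_compact : IsCompact K
  /-- `K` can be compressed into every neighbourhood of the union of the 0-handle and of the core
  arcs of the 1-handles -/
  K_compress : ∀ O : Set N, IsOpen O → b '' closedBall 0 1 ∪ ⋃ i, coreDisc 1 (l i) ⊆ O →
    ∃ κ : N → N, IsDiffeo κ ∧ K ⊆ κ '' O
  /-- the number of 2-handles -/
  d : ℕ
  /-- the 2-handles, attached to `K` -/
  h : Fin d → R4 → N
  h_handle : ∀ i, IsHandle 2 K (h i)
  h_disjoint : ∀ i j, i ≠ j → Disjoint (range (h i)) (range (h j))
  /-- the open cell which contains the handles of index three and four -/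
  c : R4 → N
  c_cell : IsOpenCell c
  /-- the complement of the open cell lies in the interior of the union of the handles of index at
  most two: it can be compressed into every neighbourhood of the union of `K` and of the core discs
  of the 2-handles -/
  c_compress : ∀ O : Set N, IsOpen O → K ∪ ⋃ i, coreDisc 2 (h i) ⊆ O →
    ∃ κ : N → N, IsDiffeo κ ∧ (range c)ᶜ ⊆ κ '' O

section aux

open Pool.Agent.N550 Pool.Agent.N550.KH

theorem core_one (z : R4) : core 1 z = ‖up 1 3 z‖ ^ 2 := by
  rw [EuclideanSpace.norm_sq_eq]
  simp [core]
  rfl

theorem core_two (z : R4) : core 2 z = ‖up 2 2 z‖ ^ 2 := by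
  rw [EuclideanSpace.norm_sq_eq, Fin.sum_univ_two]
  simp [core, Fin.sum_univ_four]
  rfl

theorem cocore_one (z : R4) : cocore 1 z = ‖vp 1 3 z‖ ^ 2 := by
  rw [EuclideanSpace.norm_sq_eq, Fin.sum_univ_three]
  simp [cocore, Fin.sum_univ_four]
  rfl

theorem cocore_two (z : R4) : cocore 2 z = ‖vp 2 2 z‖ ^ 2 := by
  rw [EuclideanSpace.norm_sq_eq, Fin.sum_univ_two]
  simp [cocore, Fin.sum_univ_four]
  rfl

theorem one_le_sq {x : ℝ} (hx : 0 ≤ x) : 1 ≤ x ^ 2 ↔ 1 ≤ x := one_le_sq_iff₀ hx

theorem sq_le_one' {x : ℝ} (hx : 0 ≤ x) : x ^ 2 ≤ 1 ↔ x ≤ 1 := sq_le_one_iff₀ hx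

variable {N : Type}

theorem disc_one (h : R4 → N) :
    coreDisc 1 h = h '' {z : R4 | vp 1 3 z = 0 ∧ ‖up 1 3 z‖ ≤ 1} := by
  have : {z : R4 | core 1 z ≤ 1 ∧ cocore 1 z = 0} =
      {z : R4 | vp 1 3 z = 0 ∧ ‖up 1 3 z‖ ≤ 1} := by
    ext z
    simp only [mem_ofPred_eq]
    rw [core_one, cocore_one, sq_le_one' (norm_nonneg _), sq_eq_zero_iff, norm_eq_zero]
    exact and_comm
  rw [coreDisc, this]

theorem disc_two (h : R4 → N) :
    coreDisc 2 h = h '' {z : R4 | vp 2 2 z = 0 ∧ ‖up 2 2 z‖ ≤ 1} := by
  have : {z : R4 | core 2 z ≤ 1 ∧ cocore 2 z = 0} =
      {z : R4 | vp 2 2 z = 0 ∧ ‖up 2 2 z‖ ≤ 1} := by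
    ext z
    simp only [mem_ofPred_eq]
    rw [core_two, cocore_two, sq_le_one' (norm_nonneg _), sq_eq_zero_iff, norm_eq_zero]
    exact and_comm
  rw [coreDisc, this]

theorem handles [TopologicalSpace N] [ChartedSpace R4 N] (D : HighHandlesInCell N) :
    TS.Handles2 N D.a D.d D.b D.l D.K D.h D.c := by
  have hsp : D.b '' closedBall 0 1 ∪ (⋃ i, coreDisc 1 (D.l i)) =
      D.b '' closedBall 0 1 ∪ (⋃ i, D.l i '' {z : R4 | vp 1 3 z = 0 ∧ ‖up 1 3 z‖ ≤ 1}) := by
    congr 1
    exact iUnion_congr fun i => disc_one _
  refine
    { b_inj := D.b_cell.1
      b_ld := D.b_cell.2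
      l_inj := fun i => (D.l_handle i).1.1
      l_ld := fun i => (D.l_handle i).1.2
      l_att := fun i z => ?_
      l_dis := fun i j z w hij hcon => ?_
      K_cpt := D.K_compact
      K_cmp := fun O hO hsub => ?_
      h_inj := fun i => (D.h_handle i).1.1
      h_ld := fun i => (D.h_handle i).1.2
      h_att := fun i z => ?_
      h_dis := fun i j z w hij hcon => ?_
      c_inj := D.c_cell.1
      c_ld := D.c_cell.2
      c_cmp := fun O hO hsub => ?_ }
  · rw [(D.l_handle i).2 z, core_one, one_le_sq (norm_nonneg _)]
  · exact disjoint_left.1 (D.l_disjoint i j hij) ⟨z, rfl⟩ ⟨w, hcon.symm⟩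
  · refine D.K_compress O hO ?_
    rw [hsp]
    exact hsub
  · rw [(D.h_handle i).2 z, core_two, one_le_sq (norm_nonneg _)]
  · exact disjoint_left.1 (D.h_disjoint i j hij) ⟨z, rfl⟩ ⟨w, hcon.symm⟩
  · refine D.c_compress O hO ?_
    have : (⋃ i, coreDisc 2 (D.h i)) =
        ⋃ i, D.h i '' {z : R4 | vp 2 2 z = 0 ∧ ‖up 2 2 z‖ ≤ 1} :=
      iUnion_congr fun i => disc_two _
    rw [this]
    exact hsub

end aux

theorem lip_of {M N : Type} [TopologicalSpace M] [ChartedSpace R4 M] [TopologicalSpace N]
    [ChartedSpace R4 N] {f : M → N} {x : M} (h : Pool.Agent.L0h29.BL.NiceM f x) :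
    BiLipschitzNear f x := by
  obtain ⟨C, hC⟩ := h.lip
  refine ⟨C, ?_⟩
  filter_upwards [hC] with p hp
  simp only [chartDist, dist_eq_norm]
  exact hp

/-- the conclusion of part 1 for a homeomorphism `G` which is a local diffeomorphism off a finite set
`S`, and for a neighbourhood `U` of `S`: there is a homeomorphism `G'` which agrees with `G` off `U`,
which is a local diffeomorphism off a finite subset `S'` of `U` with at most as many points as `S`,
and which is, at all points, bi-Lipschitz and differentiable with invertible derivative -/
def Improvable {M N : Type} [TopologicalSpace M] [ChartedSpace R4 M] [TopologicalSpace N]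
    [ChartedSpace R4 N] (G : M ≃ₜ N) (S U : Set M) : Prop :=
  ∃ (G' : M ≃ₜ N) (S' : Set M), S'.Finite ∧ S'.ncard ≤ S.ncard ∧ S' ⊆ U ∧
    (∀ x, x ∉ U → G' x = G x) ∧ (∀ x, x ∉ S' → LocDiff G' x) ∧ BiLipschitzWithInvertibleDeriv G'

/-- there is a homeomorphism `M → N` of class `C^∞` -/
def SmoothHomeo (M N : Type) [TopologicalSpace M] [ChartedSpace R4 M] [TopologicalSpace N]
    [ChartedSpace R4 N] : Prop := ∃ f : M ≃ₜ N, SmoothEverywhere f

/-- there is a homeomorphism `M → N` which is of class `C^∞` near all points off a set whose image
has one-dimensional Hausdorff measure zero -/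
def AlmostSmoothHomeo (M N : Type) [TopologicalSpace M] [ChartedSpace R4 M] [TopologicalSpace N]
    [ChartedSpace R4 N] : Prop := ∃ f : M ≃ₜ N, LengthZero (f '' {x | ¬ SmoothNear f x})

/-- there is a homeomorphism `M → N` which is a local diffeomorphism at all points but one and which
is, at all points, bi-Lipschitz and differentiable with invertible derivative -/
def FineHomeo (M N : Type) [TopologicalSpace M] [ChartedSpace R4 M] [TopologicalSpace N]
    [ChartedSpace R4 N] : Prop :=
  ∃ G : M ≃ₜ N, LocDiffOffPoint G ∧ BiLipschitzWithInvertibleDeriv G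

/-- `M` is a smooth 4-manifold (Hausdorff, not necessarily compact) -/
structure IsManifold4 (M : Type) [TopologicalSpace M] [ChartedSpace R4 M] : Prop where
  hausdorff : T2Space M
  smooth : IsManifold (𝓡 4) ∞ M

/-- **The theorem.** Let `M`, `N` be smooth 4-manifolds (Hausdorff, not necessarily compact).

(1) Let `G : M → N` be a homeomorphism which is a local diffeomorphism off a finite set `S`, and let
`U` be an open neighbourhood of `S`. Then there is a homeomorphism `G' : M → N` which agrees with `G`
off `U`, which is a local diffeomorphism off a finite subset `S'` of `U` with at most as many points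
as `S`, and which is, at all points, bi-Lipschitz and differentiable with invertible derivative.

(2) If `M`, `N` are compact, and if the handles of index at least three of `N` lie in
an open cell (for example, `N` simply connected), then the following conditions are equivalent: there
is a homeomorphism `M → N` of class `C^∞`; there is one which is of class `C^∞` near all points off a
set whose image has one-dimensional Hausdorff measure zero; there is one which is a local
diffeomorphism at all points but one and which is, at all points, bi-Lipschitz and differentiable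
with invertible derivative. -/
theorem result (M N : Type) [TopologicalSpace M] [ChartedSpace R4 M] [TopologicalSpace N]
    [ChartedSpace R4 N] (hM : IsManifold4 M) (hN : IsManifold4 N) :
    (∀ (G : M ≃ₜ N) (S U : Set M), S.Finite → IsOpen U → S ⊆ U → (∀ x, x ∉ S → LocDiff G x) →
      Improvable G S U) ∧
    (CompactSpace M → CompactSpace N → HighHandlesInCell N →
      [SmoothHomeo M N, AlmostSmoothHomeo M N, FineHomeo M N].TFAE) := by
  have := hM.hausdorff
  have := hM.smooth
  have := hN.hausdorff
  have := hN.smooth
  constructor
  · intro G S U hS hU hSU hG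
    obtain ⟨G', S', h1, h2, h3, h4, h5, h6⟩ := Pool.Agent.L0h29.BL.finite_points U hU S.ncard G S S
      hS Subset.rfl rfl hSU hG (fun x hx => Pool.Agent.L0h29.BL.niceM_of_ld (hG x hx))
    exact ⟨G', S', h1, h2, h3, h4, h5, fun x => ⟨(h6 x).1, lip_of (h6 x)⟩⟩
  · intro _ _ D
    tfae_have 1 → 2 := by
      rintro ⟨f, hf⟩
      refine ⟨f, fun y₀ => ?_⟩
      have h1 : {x | ¬ SmoothNear f x} = ∅ := by
        ext x
        simp only [mem_ofPred_eq, mem_empty_iff_false, iff_false, not_not]
        exact Eventually.of_forall fun y => hf y
      rw [h1]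
      simp
    tfae_have 2 → 3 := by
      rintro ⟨f, hf⟩
      obtain ⟨G, x₀, hG⟩ := Pool.Agent.N550.TS.fin2 M N D.a D.d D.b D.l D.K D.h D.c (handles D) f hf
      obtain ⟨G', z, -, -, h5, h6⟩ := Pool.Agent.L0h29.BL.one_point G {x₀} (finite_singleton x₀)
        (fun x hx => hG x hx) x₀ univ univ_mem (fun x _ hx => hx)
      have hz : ∀ x, x ≠ z → Pool.Agent.Y522.LD 4 G' x := fun x hx => h5 x hx fun h => h
      have hn : ∀ x, Pool.Agent.L0h29.BL.NiceM G' x := by
        intro x
        by_cases hx : x = z
        · rw [hx]
          exact h6
        · exact Pool.Agent.L0h29.BL.niceM_of_ld (hz x hx)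
      exact ⟨G', ⟨z, hz⟩, fun x => ⟨(hn x).1, lip_of (hn x)⟩⟩
    tfae_have 3 → 1 := by
      rintro ⟨G, ⟨x₀, hG⟩, -⟩
      exact Pool.Agent.N550.TS.flm 4 M N G x₀ hG
    tfae_finish

end Pool.Agent.L0h29.Old.BiLipschitz
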