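import Pool.Agent.L0h29.CS.Main
import Pool.Agent.L0h29.CS.Conv

/-!
# Maps onto closed simply connected 4-manifolds and connected sums

Let `N` be a closed smooth 4-manifold with a smooth handle decomposition (with one 0-handle) such
that the union of the handles of index three and four is contained in an open cell of `N`. Every
closed simply connected smooth 4-manifold `N` has this property: the union of the handles of index
three and four is a regular neighbourhood of a graph, which is null-homotopic, so isotopic into a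
ball.

Let `M` be a closed connected smooth 4-manifold and let `f : M → N` be a continuous map. Suppose that
there is a closed subset `Z` of `N` with two-dimensional Hausdorff measure zero such that every point
`y` of `N` off `Z` has exactly one preimage under `f`, and `f` is of class `C^∞` near this preimage
(no condition is imposed on the rank of the derivative of `f`, and there is no condition on `f` over
`Z`). Then `M` is diffeomorphic to a connected sum of `N` and a closed smooth 4-manifold `P`. If `f`
is moreover injective (so `f` is a homeomorphism, of class `C^∞` off a set whose image has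
two-dimensional Hausdorff measure zero), then `P` is homeomorphic to the 4-sphere.

Conversely, if `M` is a connected sum of `N` and `P`, then there is a map `M → N` of class `C^∞` for
which all points of `N` but one have exactly one preimage.
-/

set_option autoImplicit false

open Set Filter Topology Metric Function
open scoped Manifold ContDiff

noncomputable section

namespace Pool.Agent.L0h29.Old.ConnectedSumMaps

/-- `ℝ⁴` -/
abbrev R4 : Type := EuclideanSpace ℝ (Fin 4)

/-- the 4-sphere: the unit sphere of `ℝ⁵` -/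
abbrev S4 : Type := sphere (0 : EuclideanSpace ℝ (Fin 5)) 1

section defs

variable {M N : Type} [TopologicalSpace M] [ChartedSpace R4 M] [TopologicalSpace N]
  [ChartedSpace R4 N]

/-- `f` is of class `C^∞` near `x` (no condition is imposed on the derivative) -/
def SmoothNear (f : M → N) (x : M) : Prop := ∀ᶠ y in 𝓝 x, ContMDiffAt (𝓡 4) (𝓡 4) ∞ f y

/-- `f` is of class `C^∞` (no condition is imposed on the derivative) -/
def SmoothEverywhere (f : M → N) : Prop := ContMDiff (𝓡 4) (𝓡 4) ∞ f

/-- `f` is a local diffeomorphism (of class `C^∞`) at `x` -/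
def LocDiff (f : M → N) (x : M) : Prop := IsLocalDiffeomorphAt (𝓡 4) (𝓡 4) ∞ f x

/-- a set with two-dimensional Hausdorff measure zero (in the preferred charts) -/
def AreaZero (B : Set N) : Prop :=
  ∀ x₀ : N, MeasureTheory.Measure.hausdorffMeasure 2
    (chartAt R4 x₀ '' ((chartAt R4 x₀).source ∩ B) : Set R4) = 0

/-- `κ` is a diffeomorphism of `N` -/
def IsDiffeo (κ : N → N) : Prop := Bijective κ ∧ ∀ x, LocDiff κ x

/-- `c` is a diffeomorphism of `ℝ⁴` with an open subset of `N` -/
def IsOpenCell (c : R4 → N) : Prop := Injective c ∧ ∀ z, LocDiff c z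

/-- the square of the norm of the first `m` coordinates -/
def core (m : ℕ) (z : R4) : ℝ := ∑ i : Fin 4, if (i : ℕ) < m then z i ^ 2 else 0

/-- the square of the norm of the last `4 - m` coordinates -/
def cocore (m : ℕ) (z : R4) : ℝ := ∑ i : Fin 4, if (i : ℕ) < m then 0 else z i ^ 2

/-- `h` is a handle of index `m` attached to `Y` (with an open collar of its attaching region inside
`Y`): an open embedding of `ℝ^m × ℝ^(4-m)` for which exactly the points with first component of norm
at least one are mapped to `Y`. -/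
def IsHandle (m : ℕ) (Y : Set N) (h : R4 → N) : Prop :=
  IsOpenCell h ∧ ∀ z, h z ∈ Y ↔ 1 ≤ core m z

/-- the core disc of a handle of index `m` -/
def coreDisc (m : ℕ) (h : R4 → N) : Set N := h '' {z | core m z ≤ 1 ∧ cocore m z = 0}

end defs

/-- A handle decomposition of `N` with one 0-handle, with any number of 1-handles and 2-handles, and
with an open cell `c` which contains the handles of index at least three. -/
structure HighHandlesInCell (N : Type) [TopologicalSpace N] [ChartedSpace R4 N] where
  /-- the chart of the 0-handle, which is the image of the closed unit ball -/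
  b : R4 → N
  b_cell : IsOpenCell b
  /-- the number of 1-handles -/
  a : ℕ
  /-- the 1-handles, attached to the 0-handle -/
  l : Fin a → R4 → N
  l_handle : ∀ i, IsHandle 1 (b '' closedBall 0 1) (l i)
  l_disjoint : ∀ i j, i ≠ j → Disjoint (range (l i)) (range (l j))
  /-- the union of the handles of index at most one (with rounded corners) -/
  K : Set N
  K_compact : IsCompact K
  /-- `K` can be compressed into every neighbourhood of the union of the 0-handle and of the core
  arcs of the 1-handles -/
  K_compress : ∀ O : Set N, IsOpen O → b '' closedBall 0 1 ∪ ⋃ i, coreDisc 1 (l i) ⊆ O →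
    ∃ κ : N → N, IsDiffeo κ ∧ K ⊆ κ '' O
  /-- the number of 2-handles -/
  d : ℕ
  /-- the 2-handles, attached to `K` -/
  h : Fin d → R4 → N
  h_handle : ∀ i, IsHandle 2 K (h i)
  h_disjoint : ∀ i j, i ≠ j → Disjoint (range (h i)) (range (h j))
  /-- the open cell which contains the handles of index three and four -/
  c : R4 → N
  c_cell : IsOpenCell c
  /-- the complement of the open cell lies in the interior of the union of the handles of index at
  most two: it can be compressed into every neighbourhood of the union of `K` and of the core discs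
  of the 2-handles -/
  c_compress : ∀ O : Set N, IsOpen O → K ∪ ⋃ i, coreDisc 2 (h i) ⊆ O →
    ∃ κ : N → N, IsDiffeo κ ∧ (range c)ᶜ ⊆ κ '' O

/-- `P` is a closed connected smooth 4-manifold -/
structure IsClosedManifold (P : Type) [TopologicalSpace P] [ChartedSpace R4 P] : Prop where
  compact : CompactSpace P
  hausdorff : T2Space P
  connected : ConnectedSpace P
  smooth : IsManifold (𝓡 4) ∞ P

/-- `c` is a smooth embedding of the open ball of radius two -/
def IsDisc {N : Type} [TopologicalSpace N] [ChartedSpace R4 N] (c : R4 → N) : Prop :=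
  InjOn c (ball 0 2) ∧ ∀ z ∈ ball (0 : R4) 2, LocDiff c z

/-- `M` is (diffeomorphic to) a connected sum of `N` and `P`: there are smooth embeddings `p`, `q`
of the open ball of radius two in `N`, `P` such that `M` is the union of open subsets which are
diffeomorphic, by `i` and `j`, to the complements of the images of the closed ball of radius `1/2`,
where the points `p z` and `q (z / |z|²)`, with `1/2 < |z| < 2`, and no others, are identified. -/
def IsConnSum (M N P : Type) [TopologicalSpace M] [ChartedSpace R4 M]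
    [TopologicalSpace N] [ChartedSpace R4 N] [TopologicalSpace P] [ChartedSpace R4 P] :
    Prop :=
  ∃ (p : R4 → N) (q : R4 → P) (i : N → M) (j : P → M), IsDisc p ∧ IsDisc q ∧
    InjOn i (p '' closedBall 0 (1 / 2))ᶜ ∧ (∀ y ∈ (p '' closedBall 0 (1 / 2))ᶜ, LocDiff i y) ∧
    InjOn j (q '' closedBall 0 (1 / 2))ᶜ ∧ (∀ y ∈ (q '' closedBall 0 (1 / 2))ᶜ, LocDiff j y) ∧
    i '' (p '' closedBall 0 (1 / 2))ᶜ ∪ j '' (q '' closedBall 0 (1 / 2))ᶜ = univ ∧
    ∀ y ∈ (p '' closedBall 0 (1 / 2))ᶜ, ∀ s ∈ (q '' closedBall 0 (1 / 2))ᶜ, i y = j s ↔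
      ∃ z : R4, 1 / 2 < ‖z‖ ∧ ‖z‖ < 2 ∧ y = p z ∧ s = q ((‖z‖ ^ 2)⁻¹ • z)

section aux

open Pool.Agent.N550 Pool.Agent.N550.KH

theorem core_one (z : R4) : core 1 z = ‖up 1 3 z‖ ^ 2 := by
  rw [EuclideanSpace.norm_sq_eq]
  simp [core]
  rfl

theorem core_two (z : R4) : core 2 z = ‖up 2 2 z‖ ^ 2 := by
  rw [EuclideanSpace.norm_sq_eq, Fin.sum_univ_two]
  simp [core, Fin.sum_univ_four]
  rfl

theorem cocore_one (z : R4) : cocore 1 z = ‖vp 1 3 z‖ ^ 2 := by
  rw [EuclideanSpace.norm_sq_eq, Fin.sum_univ_three]
  simp [cocore, Fin.sum_univ_four]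
  rfl

theorem cocore_two (z : R4) : cocore 2 z = ‖vp 2 2 z‖ ^ 2 := by
  rw [EuclideanSpace.norm_sq_eq, Fin.sum_univ_two]
  simp [cocore, Fin.sum_univ_four]
  rfl

theorem one_le_sq {x : ℝ} (hx : 0 ≤ x) : 1 ≤ x ^ 2 ↔ 1 ≤ x := one_le_sq_iff₀ hx

theorem sq_le_one' {x : ℝ} (hx : 0 ≤ x) : x ^ 2 ≤ 1 ↔ x ≤ 1 := sq_le_one_iff₀ hx

variable {N : Type}

theorem disc_one (h : R4 → N) :
    coreDisc 1 h = h '' {z : R4 | vp 1 3 z = 0 ∧ ‖up 1 3 z‖ ≤ 1} := by
  have : {z : R4 | core 1 z ≤ 1 ∧ cocore 1 z = 0} =
      {z : R4 | vp 1 3 z = 0 ∧ ‖up 1 3 z‖ ≤ 1} := by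
    ext z
    simp only [mem_ofPred_eq]
    rw [core_one, cocore_one, sq_le_one' (norm_nonneg _), sq_eq_zero_iff, norm_eq_zero]
    exact and_comm
  rw [coreDisc, this]

theorem disc_two (h : R4 → N) :
    coreDisc 2 h = h '' {z : R4 | vp 2 2 z = 0 ∧ ‖up 2 2 z‖ ≤ 1} := by
  have : {z : R4 | core 2 z ≤ 1 ∧ cocore 2 z = 0} =
      {z : R4 | vp 2 2 z = 0 ∧ ‖up 2 2 z‖ ≤ 1} := by
    ext z
    simp only [mem_ofPred_eq]
    rw [core_two, cocore_two, sq_le_one' (norm_nonneg _), sq_eq_zero_iff, norm_eq_zero]
    exact and_comm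
  rw [coreDisc, this]

theorem handles [TopologicalSpace N] [ChartedSpace R4 N] (D : HighHandlesInCell N) :
    TS.Handles2 N D.a D.d D.b D.l D.K D.h D.c := by
  have hsp : D.b '' closedBall 0 1 ∪ (⋃ i, coreDisc 1 (D.l i)) =
      D.b '' closedBall 0 1 ∪ (⋃ i, D.l i '' {z : R4 | vp 1 3 z = 0 ∧ ‖up 1 3 z‖ ≤ 1}) := by
    congr 1
    exact iUnion_congr fun i => disc_one _
  refine
    { b_inj := D.b_cell.1
      b_ld := D.b_cell.2
      l_inj := fun i => (D.l_handle i).1.1
      l_ld := fun i => (D.l_handle i).1.2
      l_att := fun i z => ?_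
      l_dis := fun i j z w hij hcon => ?_
      K_cpt := D.K_compact
      K_cmp := fun O hO hsub => ?_
      h_inj := fun i => (D.h_handle i).1.1
      h_ld := fun i => (D.h_handle i).1.2
      h_att := fun i z => ?_
      h_dis := fun i j z w hij hcon => ?_
      c_inj := D.c_cell.1
      c_ld := D.c_cell.2
      c_cmp := fun O hO hsub => ?_ }
  · rw [(D.l_handle i).2 z, core_one, one_le_sq (norm_nonneg _)]
  · exact disjoint_left.1 (D.l_disjoint i j hij) ⟨z, rfl⟩ ⟨w, hcon.symm⟩
  · refine D.K_compress O hO ?_
    rw [hsp]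
    exact hsub
  · rw [(D.h_handle i).2 z, core_two, one_le_sq (norm_nonneg _)]
  · exact disjoint_left.1 (D.h_disjoint i j hij) ⟨z, rfl⟩ ⟨w, hcon.symm⟩
  · refine D.c_compress O hO ?_
    have : (⋃ i, coreDisc 2 (D.h i)) =
        ⋃ i, D.h i '' {z : R4 | vp 2 2 z = 0 ∧ ‖up 2 2 z‖ ≤ 1} :=
      iUnion_congr fun i => disc_two _
    rw [this]
    exact hsub

theorem pointSphere : Nonempty (OnePoint R4 ≃ₜ S4) :=
  ⟨onePointEquivSphereOfFinrankEq (by simp)⟩

end aux

/-- **The theorem.** Let `M`, `N` be closed smooth 4-manifolds, where `M` is connected and the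
handles of index at least three of `N` lie in an open cell (for example, `N` simply connected).

(1) Let `f : M → N` be continuous and let `Z ⊆ N` be a closed set with two-dimensional Hausdorff
measure zero such that every point of `N` off `Z` has exactly one preimage, near which `f` is of
class `C^∞`. Then `M` is a connected sum of `N` and a closed connected smooth 4-manifold `P`, and
`P` is homeomorphic to the 4-sphere if `f` is injective.

(2) Conversely, if `M` is a connected sum of `N` and a closed connected smooth 4-manifold `P`, then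
there is a map `f : M → N` of class `C^∞` and a point `y₀` of `N` such that every point of `N`
different from `y₀` has exactly one preimage. -/
theorem result (M N : Type) [TopologicalSpace M] [CompactSpace M] [T2Space M] [ConnectedSpace M]
    [ChartedSpace R4 M] [IsManifold (𝓡 4) ∞ M] [TopologicalSpace N] [CompactSpace N] [T2Space N]
    [ChartedSpace R4 N] [IsManifold (𝓡 4) ∞ N] (D : HighHandlesInCell N) :
    (∀ (f : M → N) (Z : Set N), Continuous f → IsClosed Z → AreaZero Z →
      (∀ y, y ∉ Z → ∃ x, f x = y ∧ SmoothNear f x ∧ ∀ x', f x' = y → x' = x) →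
      ∃ (P : Type) (_ : TopologicalSpace P) (_ : ChartedSpace R4 P), IsClosedManifold P ∧
        IsConnSum M N P ∧ (Injective f → Nonempty (P ≃ₜ S4))) ∧
    ∀ (P : Type) [TopologicalSpace P] [ChartedSpace R4 P], IsClosedManifold P →
      IsConnSum M N P →
      ∃ (f : M → N) (y₀ : N), SmoothEverywhere f ∧ ∀ y, y ≠ y₀ → ∃! x, f x = y := by
  constructor
  · intro f Z hf hZ hZ0 hgood
    have hinv : Pool.Agent.L0h29.CS.Inv 4 f Z :=
      ⟨hf, hZ, Pool.Agent.L0h29.CS.NullC2.nullH2 hZ0, hgood⟩
    obtain ⟨G, Z', R, hR, hG, hgoodG, hbij⟩ := Pool.Agent.L0h29.CS.main M N D.a D.d D.b D.l D.K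
      D.h D.c (handles D) f Z hinv
    -- rescaling of the cell
    let c : R4 → N := fun z => D.c ((2 * R) • z)
    have h2R : 2 * R ≠ 0 := by positivity
    have hci : Injective c := by
      intro z w hzw
      exact smul_right_injective _ h2R (D.c_cell.1 hzw)
    have hcl : ∀ z, Pool.Agent.Y522.LD 4 c z := by
      intro z
      refine Pool.Agent.Y522.LD.comp_fun (g := D.c) (f := fun z : R4 => (2 * R) • z)
        (D.c_cell.2 _) ?_
      exact Pool.Agent.Y522.LD_linear (ContinuousLinearEquiv.smulLeft (Units.mk0 (2 * R) h2R)) z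
    have hcb : c '' closedBall 0 (1 / 2) = D.c '' closedBall 0 R := by
      ext y
      constructor
      · rintro ⟨z, hz, rfl⟩
        refine ⟨(2 * R) • z, ?_, rfl⟩
        rw [mem_closedBall_zero_iff] at hz ⊢
        rw [norm_smul, Real.norm_of_nonneg (by positivity)]
        nlinarith
      · rintro ⟨z, hz, rfl⟩
        refine ⟨(2 * R)⁻¹ • z, ?_, ?_⟩
        · rw [mem_closedBall_zero_iff] at hz ⊢
          rw [norm_smul, Real.norm_of_nonneg (by positivity), inv_mul_le_iff₀ (by positivity)]
          linarith
        · show D.c ((2 * R) • ((2 * R)⁻¹ • z)) = D.c z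
          rw [smul_smul, mul_inv_cancel₀ h2R, one_smul]
    obtain ⟨P, tP, cP, h1, h2, h3, h4, h5, h6⟩ := Pool.Agent.L0h29.CS.exists_connSum 4
      (by norm_num) M N G hG.cont c hci hcl (fun y hy => by
        rw [hcb] at hy
        obtain ⟨hyZ, hyl⟩ := hgoodG y hy
        obtain ⟨x, hx, -, hxu⟩ := hG.good y hyZ
        exact ⟨x, hx, hyl x hx, hxu⟩)
    refine ⟨P, tP, cP, ⟨h1, h2, h6 (Pool.Agent.N550.TS.Fin2.range_ne_univ c hci hcl) inferInstance, h3⟩, h4,
      fun hfi => ?_⟩
    obtain ⟨e⟩ := pointSphere
    have hfs : Surjective f := by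
      have h7 : IsClosed (range f) := (isCompact_range hf).isClosed
      have h8 : Zᶜ ⊆ range f := fun y hy => by
        obtain ⟨x, hx, -, -⟩ := hgood y hy
        exact ⟨x, hx⟩
      rw [← range_eq_univ]
      by_contra hcon
      obtain ⟨y, hy⟩ : ∃ y, y ∉ range f := by
        by_contra hcon2
        push Not at hcon2
        exact hcon (eq_univ_of_forall hcon2)
      have h9 : IsOpen ((chartAt R4 y).source ∩ (range f)ᶜ) :=
        (chartAt R4 y).open_source.inter h7.isOpen_compl
      have h10 : IsOpen (chartAt R4 y '' ((chartAt R4 y).source ∩ (range f)ᶜ)) :=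
        (chartAt R4 y).isOpen_image_of_subset_source h9 inter_subset_left
      have h11 : MeasureTheory.volume
          (chartAt R4 y '' ((chartAt R4 y).source ∩ (range f)ᶜ) : Set R4) = 0 := by
        apply Pool.Agent.L0h29.CS.volume_null (by norm_num)
        refine MeasureTheory.measure_mono_null (image_mono ?_) (hZ0 y)
        rintro x ⟨hx1, hx2⟩
        refine ⟨hx1, ?_⟩
        by_contra hxZ
        exact hx2 (h8 hxZ)
      exact (h10.measure_pos MeasureTheory.volume
        ⟨_, y, ⟨mem_chart_source R4 y, hy⟩, rfl⟩).ne' h11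
    obtain ⟨e'⟩ := h5 (hbij ⟨hfi, hfs⟩)
    exact ⟨e'.trans e⟩
  · intro P _ _ hP hsum
    have := hP.hausdorff
    have := hP.smooth
    obtain ⟨f, y₀, h1, h2⟩ := Pool.Agent.L0h29.CS.collapse 4 M N P hsum
    refine ⟨f, y₀, h1, fun y hy => ?_⟩
    obtain ⟨x, hx, hu⟩ := h2 y hy
    exact ⟨x, hx, hu⟩

end Pool.Agent.L0h29.Old.ConnectedSumMaps
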