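import Pool.Agent.L0h29.EN.Rec
import Pool.Agent.L0h29.EN.Flat

/-!
# Simply connected 4-manifolds and closed subsets with two-dimensional Hausdorff measure zero

(A) Every compact subset with two-dimensional Hausdorff measure zero of a simply connected smooth
4-manifold (Hausdorff, compact or not) is contained in an open cell.

(B) Let `N` be a closed simply connected smooth 4-manifold, and let `M` be a closed connected smooth
4-manifold. Then `M` is a connected sum of `N` and a closed connected smooth 4-manifold if and only
if the complement of some closed subset `Z` of `N` with two-dimensional Hausdorff measure zero is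
diffeomorphic to an open subset of `M`.

(C) Let `M`, `N` be closed simply connected smooth 4-manifolds. Suppose that there are closed subsets
of `M` and of `N` with two-dimensional Hausdorff measure zero which have diffeomorphic complements.
Then `M` and `N` become diffeomorphic when one point is removed from each of them, and `M` is
diffeomorphic to the connected sum of `N` and a closed 4-manifold `P` which is invertible (some
connected sum of `P` with a closed 4-manifold is diffeomorphic to the 4-sphere). These conditions are
equivalent, and they hold if and only if there is a homeomorphism `M → N` of class `C^∞` with at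
most one critical point.

No assumption is made on handle decompositions. The dimension in (C) is sharp: logarithmic
transformations give closed simply connected 4-manifolds which are not related in this way, but become
diffeomorphic after the removal of smooth tori (which have finite two-dimensional Hausdorff measure).
-/

set_option autoImplicit false

open Set Filter Topology Metric Function
open scoped Manifold ContDiff

noncomputable section

namespace Pool.Agent.Results.MP_cb9bff_gt.NullSetComplements

/-- `ℝ⁴` -/
abbrev R4 : Type := EuclideanSpace ℝ (Fin 4)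

/-- the 4-sphere: the unit sphere of `ℝ⁵` -/
abbrev S4 : Type := sphere (0 : EuclideanSpace ℝ (Fin 5)) 1

section defs

variable {M N : Type} [TopologicalSpace M] [ChartedSpace R4 M] [TopologicalSpace N]
  [ChartedSpace R4 N]

/-- `f` is a local diffeomorphism (of class `C^∞`) at `x` -/
def LocDiff (f : M → N) (x : M) : Prop := IsLocalDiffeomorphAt (𝓡 4) (𝓡 4) ∞ f x

/-- a set with two-dimensional Hausdorff measure zero (in the preferred charts) -/
def AreaZero (B : Set N) : Prop :=
  ∀ x₀ : N, MeasureTheory.Measure.hausdorffMeasure 2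
    (chartAt R4 x₀ '' ((chartAt R4 x₀).source ∩ B) : Set R4) = 0

/-- `c` is a diffeomorphism of `ℝ⁴` with an open subset of `N` -/
def IsOpenCell (c : R4 → N) : Prop := Injective c ∧ ∀ z, LocDiff c z

/-- the restriction of `i` to the complement of the closed subset `Z` of `N` is a diffeomorphism with
an open subset of `M` -/
def EmbedsOff (i : N → M) (Z : Set N) : Prop :=
  IsClosed Z ∧ InjOn i Zᶜ ∧ ∀ y, y ∉ Z → LocDiff i y

/-- `φ` restricts to a diffeomorphism of the complement of the closed subset `Z'` of `M` with the
complement of the closed subset `Z` of `N` -/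
def IsDiffeoOff (φ : M → N) (Z' : Set M) (Z : Set N) : Prop :=
  EmbedsOff φ Z' ∧ IsClosed Z ∧ φ '' Z'ᶜ = Zᶜ

end defs

/-- `P` is a closed connected smooth 4-manifold -/
structure IsClosedManifold (P : Type) [TopologicalSpace P] [ChartedSpace R4 P] : Prop where
  compact : CompactSpace P
  hausdorff : T2Space P
  connected : ConnectedSpace P
  smooth : IsManifold (𝓡 4) ∞ P

/-- `c` is a smooth embedding of the open ball of radius two -/
def IsDisc {N : Type} [TopologicalSpace N] [ChartedSpace R4 N] (c : R4 → N) : Prop :=
  InjOn c (ball 0 2) ∧ ∀ z ∈ ball (0 : R4) 2, LocDiff c z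

section sums

variable (M N : Type) [TopologicalSpace M] [ChartedSpace R4 M] [TopologicalSpace N]
  [ChartedSpace R4 N]

/-- `M` is (diffeomorphic to) a connected sum of `N` and `P`: there are smooth embeddings `p`, `q`
of the open ball of radius two in `N`, `P` such that `M` is the union of open subsets which are
diffeomorphic, by `i` and `j`, to the complements of the images of the closed ball of radius `1/2`,
where the points `p z` and `q (z / |z|²)`, with `1/2 < |z| < 2`, and no others, are identified. -/
def IsConnSum (P : Type) [TopologicalSpace P] [ChartedSpace R4 P] : Prop :=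
  ∃ (p : R4 → N) (q : R4 → P) (i : N → M) (j : P → M), IsDisc p ∧ IsDisc q ∧
    InjOn i (p '' closedBall 0 (1 / 2))ᶜ ∧ (∀ y ∈ (p '' closedBall 0 (1 / 2))ᶜ, LocDiff i y) ∧
    InjOn j (q '' closedBall 0 (1 / 2))ᶜ ∧ (∀ y ∈ (q '' closedBall 0 (1 / 2))ᶜ, LocDiff j y) ∧
    i '' (p '' closedBall 0 (1 / 2))ᶜ ∪ j '' (q '' closedBall 0 (1 / 2))ᶜ = univ ∧
    ∀ y ∈ (p '' closedBall 0 (1 / 2))ᶜ, ∀ s ∈ (q '' closedBall 0 (1 / 2))ᶜ, i y = j s ↔
      ∃ z : R4, 1 / 2 < ‖z‖ ∧ ‖z‖ < 2 ∧ y = p z ∧ s = q ((‖z‖ ^ 2)⁻¹ • z)

/-- `P` is invertible: some connected sum of `P` with a closed connected smooth 4-manifold is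
diffeomorphic to the 4-sphere -/
def IsInvertible (P : Type) [TopologicalSpace P] [ChartedSpace R4 P] : Prop :=
  ∃ (P' : Type) (_ : TopologicalSpace P') (_ : ChartedSpace R4 P'), IsClosedManifold P' ∧
    IsConnSum S4 P P'

/-- the complement of some point of `P` is diffeomorphic to `ℝ⁴` -/
def PuncturedIsR4 (P : Type) [TopologicalSpace P] [ChartedSpace R4 P] : Prop :=
  ∃ (x : P) (c : R4 → P), IsOpenCell c ∧ range c = {x}ᶜ

/-- `M` is a connected sum of `N` and a closed connected smooth 4-manifold with the property `Q` -/
def SumWith (Q : ∀ (P : Type) [TopologicalSpace P] [ChartedSpace R4 P], Prop) : Prop :=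
  ∃ (P : Type) (_ : TopologicalSpace P) (_ : ChartedSpace R4 P), IsClosedManifold P ∧
    IsConnSum M N P ∧ Q P

/-- there are closed subsets of `M` and `N` with two-dimensional Hausdorff measure zero which have
diffeomorphic complements -/
def DiffeoOffNullSets : Prop :=
  ∃ (Z' : Set M) (Z : Set N) (φ : M → N), AreaZero Z' ∧ AreaZero Z ∧ IsDiffeoOff φ Z' Z

/-- there are a point of `M` and a point of `N` which have diffeomorphic complements -/
def DiffeoOffPoints : Prop := ∃ (x : M) (y : N) (φ : M → N), IsDiffeoOff φ {x} {y}

/-- there is a homeomorphism `M → N` of class `C^∞` with at most one critical point -/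
def OneCriticalPoint : Prop :=
  ∃ f : M ≃ₜ N, ContMDiff (𝓡 4) (𝓡 4) ∞ f ∧ ∃ x₀ : M, ∀ x, x ≠ x₀ → LocDiff f x

end sums

section aux

open Pool.Agent.L0h29.EN Pool.Agent.L0h29.CS

variable {M N : Type} [TopologicalSpace M] [ChartedSpace R4 M] [TopologicalSpace N]
  [ChartedSpace R4 N]

theorem areaZero_single (y : N) : AreaZero ({y} : Set N) := by
  intro x₀
  have h1 : (chartAt R4 x₀ '' ((chartAt R4 x₀).source ∩ {y})).Subsingleton := by
    rintro _ ⟨a, ⟨-, ha⟩, rfl⟩ _ ⟨b, ⟨-, hb⟩, rfl⟩
    rw [mem_singleton_iff] at ha hb
    rw [ha, hb]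
  rcases h1.eq_empty_or_singleton with h2 | ⟨x, h2⟩
  · rw [h2]; exact MeasureTheory.measure_empty
  · rw [h2]
    have := MeasureTheory.Measure.nullSingletonClass_hausdorff (X := R4) (d := 2) two_pos
    exact MeasureTheory.measure_singleton x

theorem dfOff {φ : M → N} {Z' : Set M} {Z : Set N} (h : IsDiffeoOff φ Z' Z) : DfOff φ Z' Z :=
  ⟨h.1.1, h.2.1, h.1.2.1, h.1.2.2, h.2.2⟩

end aux

open Pool.Agent.L0h29.EN Pool.Agent.L0h29.CS

/-- **The theorem.**

(A) In a simply connected smooth 4-manifold `X` (Hausdorff, not necessarily compact), every compact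
subset with two-dimensional Hausdorff measure zero is contained in an open cell.

(B) Let `M`, `N` be closed connected smooth 4-manifolds, with `N` simply connected. Then `M` is a
connected sum of `N` and a closed connected smooth 4-manifold if and only if, for some closed subset
`Z` of `N` with two-dimensional Hausdorff measure zero, `N ∖ Z` is diffeomorphic to an open subset of
`M`.

(C) Let `M`, `N` be closed simply connected smooth 4-manifolds. The following conditions are
equivalent: some closed subsets of `M` and `N` with two-dimensional Hausdorff measure zero have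
diffeomorphic complements; some points of `M` and `N` have diffeomorphic complements; `M` is a
connected sum of `N` and an invertible closed 4-manifold; `M` is a connected sum of `N` and a closed
4-manifold in which the complement of some point is diffeomorphic to `ℝ⁴`; there is a homeomorphism
`M → N` of class `C^∞` with at most one critical point. -/
theorem result :
    (∀ (X : Type) [TopologicalSpace X] [T2Space X] [SimplyConnectedSpace X] [ChartedSpace R4 X]
      [IsManifold (𝓡 4) ∞ X] (Z : Set X), IsCompact Z → AreaZero Z →
      ∃ c : R4 → X, IsOpenCell c ∧ Z ⊆ range c) ∧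
    (∀ (M N : Type) [TopologicalSpace M] [ChartedSpace R4 M] [TopologicalSpace N]
      [ChartedSpace R4 N], IsClosedManifold M → IsClosedManifold N → SimplyConnectedSpace N →
      ((∃ (Z : Set N) (i : N → M), AreaZero Z ∧ EmbedsOff i Z) ↔
        SumWith M N fun _ _ _ => True)) ∧
    ∀ (M N : Type) [TopologicalSpace M] [ChartedSpace R4 M] [TopologicalSpace N]
      [ChartedSpace R4 N], IsClosedManifold M → IsClosedManifold N → SimplyConnectedSpace M →
      SimplyConnectedSpace N →
      [DiffeoOffNullSets M N, DiffeoOffPoints M N, SumWith M N fun P _ _ => IsInvertible P,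
        SumWith M N fun P _ _ => PuncturedIsR4 P, OneCriticalPoint M N].TFAE := by
  refine ⟨?_, ?_, ?_⟩
  · intro X _ _ _ _ _ Z hZ hZn
    obtain ⟨c, hc, hcZ⟩ := engulf hZ (NullC2.nullH2 hZn)
    exact ⟨c, hc, hcZ⟩
  · intro M N _ _ _ _ hM hN hNs
    have := hM.compact
    have := hM.hausdorff
    have := hM.connected
    have := hM.smooth
    have := hN.compact
    have := hN.hausdorff
    have := hN.connected
    have := hN.smooth
    constructor
    · rintro ⟨Z, i, hZn, hZ, hi, hl⟩
      obtain ⟨P, tP, cP, h1, h2, h3, h4, h5⟩ := sum_of_emb hZ (NullC2.nullH2 hZn) hi hl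
      exact ⟨P, tP, cP, ⟨h1, h2, h3, h4⟩, h5, trivial⟩
    · rintro ⟨P, tP, cP, hP, hs, -⟩
      obtain ⟨y₀, i, hi, hl⟩ := emb_of_sum hs
      exact ⟨{y₀}, i, areaZero_single y₀, isClosed_singleton, hi, hl⟩
  · intro M N _ _ _ _ hM hN hMs hNs
    have := hM.compact
    have := hM.hausdorff
    have := hM.connected
    have := hM.smooth
    have := hN.compact
    have := hN.hausdorff
    have := hN.connected
    have := hN.smooth
    have key : ∀ (G : M ≃ₜ N) (x₀ : M), (∀ x, x ≠ x₀ → Pool.Agent.Y522.LD 4 G x) →
        IsDiffeoOff G {x₀} {G x₀} := by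
      intro G x₀ hG
      refine ⟨⟨isClosed_singleton, G.injective.injOn, fun x hx => hG x hx⟩, isClosed_singleton, ?_⟩
      rw [image_compl_eq G.bijective, image_singleton]
    tfae_have 2 → 1 := by
      rintro ⟨x, y, φ, h⟩
      exact ⟨{x}, {y}, φ, areaZero_single x, areaZero_single y, h⟩
    tfae_have 1 → 3 := by
      rintro ⟨Z', Z, φ, hZ', hZ, h⟩
      obtain ⟨G, x₀, hG⟩ := (dfOff h).homeo (NullC2.nullH2 hZ') (NullC2.nullH2 hZ)
      obtain ⟨P, tP, cP, h1, h2, h3, h4, h5, P', tP', cP', h1', h2', h3', h4', h5'⟩ :=
        exists_inv_summand G x₀ hG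
      exact ⟨P, tP, cP, ⟨h1, h2, h3, h4⟩, h5, P', tP', cP', ⟨h1', h2', h3', h4'⟩, h5'⟩
    tfae_have 3 → 4 := by
      rintro ⟨P, tP, cP, hP, hs, P', tP', cP', hP', hs'⟩
      have := hP.compact
      have := hP.hausdorff
      have := hP.connected
      have := hP.smooth
      have := hP'.compact
      have := hP'.hausdorff
      have := hP'.smooth
      obtain ⟨x⟩ : Nonempty P := hP.connected.toNonempty
      obtain ⟨b, hb, hbr⟩ := (PE.of_inv (P := P) (P' := P') hs').cell x
      exact ⟨P, tP, cP, hP, hs, x, b, hb, hbr⟩
    tfae_have 4 → 5 := by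
      rintro ⟨P, tP, cP, hP, hs, x, b, hb, hbr⟩
      have := hP.compact
      have := hP.hausdorff
      have := hP.connected
      have := hP.smooth
      obtain ⟨G, x₀, hG⟩ := homeo_of_PE (M := M) (N := N) (P := P) hs (PE.of_cell hb hbr)
      obtain ⟨f, hf, hfl⟩ := flat 4 M N G x₀ hG
      exact ⟨f, hf, x₀, hfl⟩
    tfae_have 5 → 2 := by
      rintro ⟨f, -, x₀, hf⟩
      exact ⟨x₀, f x₀, f, key f x₀ hf⟩
    tfae_finish

end Pool.Agent.Results.MP_cb9bff_gt.NullSetComplements
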