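import Pool.Agent.L0h29.RG.Sheets
import Pool.Agent.L0h29.RG.Join
import Pool.Agent.L0h29.CS.Main

/-!
# Maps onto simply connected 4-manifolds whose critical points have rank at most one

Let `N` be a closed simply connected smooth 4-manifold with a smooth handle decomposition (with one
0-handle) such that the union of the handles of index three and four is contained in an open cell of
`N`. Every closed simply connected smooth 4-manifold `N` has this property: the union of the handles
of index three and four is a regular neighbourhood of a graph, which is null-homotopic, so isotopic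
into a ball.

Let `M` be a closed connected smooth 4-manifold and let `f : M → N` be a map of class `C^∞` of which
all critical points have rank at most one (so there is no critical point of rank two or three). Then
all regular values of `f` have the same number `k` of preimages, and `M` is diffeomorphic to a
connected sum of `k` copies of `N` (with some orientations) and a closed smooth 4-manifold `P`. More
generally it is enough that `f` is continuous, and of this kind over the complement of a closed
subset `Z` of `N` with two-dimensional Hausdorff measure zero.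

Conversely, if `M` is such a connected sum, then there is a map `M → N` of class `C^∞` for which all
points of `N` but one are regular values with exactly `k` preimages.
-/

set_option autoImplicit false

open Set Filter Topology Metric Function
open scoped Manifold ContDiff

noncomputable section

namespace Pool.Agent.L0h29.Old.RankOneCritical

/-- `ℝ⁴` -/
abbrev R4 : Type := EuclideanSpace ℝ (Fin 4)

section defs

variable {M N : Type} [TopologicalSpace M] [ChartedSpace R4 M] [TopologicalSpace N]
  [ChartedSpace R4 N]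

/-- `f` is of class `C^∞` near `x` (no condition is imposed on the derivative) -/
def SmoothNear (f : M → N) (x : M) : Prop := ∀ᶠ y in 𝓝 x, ContMDiffAt (𝓡 4) (𝓡 4) ∞ f y

/-- `f` is of class `C^∞` (no condition is imposed on the derivative) -/
def SmoothEverywhere (f : M → N) : Prop := ContMDiff (𝓡 4) (𝓡 4) ∞ f

/-- `f` is a local diffeomorphism (of class `C^∞`) at `x` -/
def LocDiff (f : M → N) (x : M) : Prop := IsLocalDiffeomorphAt (𝓡 4) (𝓡 4) ∞ f x

/-- a set with two-dimensional Hausdorff measure zero (in the preferred charts) -/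
def AreaZero (B : Set N) : Prop :=
  ∀ x₀ : N, MeasureTheory.Measure.hausdorffMeasure 2
    (chartAt R4 x₀ '' ((chartAt R4 x₀).source ∩ B) : Set R4) = 0

/-- `κ` is a diffeomorphism of `N` -/
def IsDiffeo (κ : N → N) : Prop := Bijective κ ∧ ∀ x, LocDiff κ x

/-- `c` is a diffeomorphism of `ℝ⁴` with an open subset of `N` -/
def IsOpenCell (c : R4 → N) : Prop := Injective c ∧ ∀ z, LocDiff c z

/-- the square of the norm of the first `m` coordinates -/
def core (m : ℕ) (z : R4) : ℝ := ∑ i : Fin 4, if (i : ℕ) < m then z i ^ 2 else 0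

/-- the square of the norm of the last `4 - m` coordinates -/
def cocore (m : ℕ) (z : R4) : ℝ := ∑ i : Fin 4, if (i : ℕ) < m then 0 else z i ^ 2

/-- `h` is a handle of index `m` attached to `Y` (with an open collar of its attaching region inside
`Y`): an open embedding of `ℝ^m × ℝ^(4-m)` for which exactly the points with first component of norm
at least one are mapped to `Y`. -/
def IsHandle (m : ℕ) (Y : Set N) (h : R4 → N) : Prop :=
  IsOpenCell h ∧ ∀ z, h z ∈ Y ↔ 1 ≤ core m z

/-- the core disc of a handle of index `m` -/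
def coreDisc (m : ℕ) (h : R4 → N) : Set N := h '' {z | core m z ≤ 1 ∧ cocore m z = 0}

end defs

/-- A handle decomposition of `N` with one 0-handle, with any number of 1-handles and 2-handles, and
with an open cell `c` which contains the handles of index at least three. -/
structure HighHandlesInCell (N : Type) [TopologicalSpace N] [ChartedSpace R4 N] where
  /-- the chart of the 0-handle, which is the image of the closed unit ball -/
  b : R4 → N
  b_cell : IsOpenCell b
  /-- the number of 1-handles -/
  a : ℕ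
  /-- the 1-handles, attached to the 0-handle -/
  l : Fin a → R4 → N
  l_handle : ∀ i, IsHandle 1 (b '' closedBall 0 1) (l i)
  l_disjoint : ∀ i j, i ≠ j → Disjoint (range (l i)) (range (l j))
  /-- the union of the handles of index at most one (with rounded corners) -/
  K : Set N
  K_compact : IsCompact K
  /-- `K` can be compressed into every neighbourhood of the union of the 0-handle and of the core
  arcs of the 1-handles -/
  K_compress : ∀ O : Set N, IsOpen O → b '' closedBall 0 1 ∪ ⋃ i, coreDisc 1 (l i) ⊆ O →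
    ∃ κ : N → N, IsDiffeo κ ∧ K ⊆ κ '' O
  /-- the number of 2-handles -/
  d : ℕ
  /-- the 2-handles, attached to `K` -/
  h : Fin d → R4 → N
  h_handle : ∀ i, IsHandle 2 K (h i)
  h_disjoint : ∀ i j, i ≠ j → Disjoint (range (h i)) (range (h j))
  /-- the open cell which contains the handles of index three and four -/
  c : R4 → N
  c_cell : IsOpenCell c
  /-- the complement of the open cell lies in the interior of the union of the handles of index at
  most two: it can be compressed into every neighbourhood of the union of `K` and of the core discs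
  of the 2-handles -/
  c_compress : ∀ O : Set N, IsOpen O → K ∪ ⋃ i, coreDisc 2 (h i) ⊆ O →
    ∃ κ : N → N, IsDiffeo κ ∧ (range c)ᶜ ⊆ κ '' O

/-- `P` is a closed connected smooth 4-manifold -/
structure IsClosedManifold (P : Type) [TopologicalSpace P] [ChartedSpace R4 P] : Prop where
  compact : CompactSpace P
  hausdorff : T2Space P
  connected : ConnectedSpace P
  smooth : IsManifold (𝓡 4) ∞ P

/-- `c` is a smooth embedding of the open ball of radius two -/
def IsDisc {N : Type} [TopologicalSpace N] [ChartedSpace R4 N] (c : R4 → N) : Prop :=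
  InjOn c (ball 0 2) ∧ ∀ z ∈ ball (0 : R4) 2, LocDiff c z

/-- `M` is (diffeomorphic to) a connected sum of `N` and `P`: there are smooth embeddings `p`, `q`
of the open ball of radius two in `N`, `P` such that `M` is the union of open subsets which are
diffeomorphic, by `i` and `j`, to the complements of the images of the closed ball of radius `1/2`,
where the points `p z` and `q (z / |z|²)`, with `1/2 < |z| < 2`, and no others, are identified. -/
def IsConnSum (M N P : Type) [TopologicalSpace M] [ChartedSpace R4 M]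
    [TopologicalSpace N] [ChartedSpace R4 N] [TopologicalSpace P] [ChartedSpace R4 P] :
    Prop :=
  ∃ (p : R4 → N) (q : R4 → P) (i : N → M) (j : P → M), IsDisc p ∧ IsDisc q ∧
    InjOn i (p '' closedBall 0 (1 / 2))ᶜ ∧ (∀ y ∈ (p '' closedBall 0 (1 / 2))ᶜ, LocDiff i y) ∧
    InjOn j (q '' closedBall 0 (1 / 2))ᶜ ∧ (∀ y ∈ (q '' closedBall 0 (1 / 2))ᶜ, LocDiff j y) ∧
    i '' (p '' closedBall 0 (1 / 2))ᶜ ∪ j '' (q '' closedBall 0 (1 / 2))ᶜ = univ ∧
    ∀ y ∈ (p '' closedBall 0 (1 / 2))ᶜ, ∀ s ∈ (q '' closedBall 0 (1 / 2))ᶜ, i y = j s ↔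
      ∃ z : R4, 1 / 2 < ‖z‖ ∧ ‖z‖ < 2 ∧ y = p z ∧ s = q ((‖z‖ ^ 2)⁻¹ • z)

/-- `M` is diffeomorphic to a connected sum of `k` copies of `N` and a closed connected smooth
4-manifold: `M = N # (N # ⋯ (N # P))`, where `N` occurs `k` times. -/
def SplitsOff (N : Type) [TopologicalSpace N] [ChartedSpace R4 N] :
    ℕ → ∀ (M : Type) [TopologicalSpace M] [ChartedSpace R4 M], Prop
  | 0, _, _, _ => True
  | k + 1, M, _, _ => ∃ (M₁ : Type) (_ : TopologicalSpace M₁) (_ : ChartedSpace R4 M₁),
      IsClosedManifold M₁ ∧ IsConnSum M N M₁ ∧ SplitsOff N k M₁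

section maps

variable {M N : Type} [TopologicalSpace M] [ChartedSpace R4 M] [TopologicalSpace N]
  [ChartedSpace R4 N]

/-- `f` in the preferred charts at `x` and at `f x` -/
def inCharts (f : M → N) (x : M) : R4 → R4 :=
  fun y => chartAt R4 (f x) (f ((chartAt R4 x).symm y))

/-- the derivative of `f` at `x` (in the preferred charts at `x` and at `f x`) has rank at most
one: its values are multiples of one vector -/
def RankLeOne (f : M → N) (x : M) : Prop :=
  ∃ v : R4, ∀ w : R4, ∃ t : ℝ, fderiv ℝ (inCharts f x) (chartAt R4 x x) w = t • v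

/-- Off the preimage of `Z`, the map `f` is of class `C^∞`, and its critical points there have rank
at most one. (No condition is imposed on `f` at the points which are mapped to `Z`.) -/
def CriticalRankLeOne (f : M → N) (Z : Set N) : Prop :=
  ∀ x, f x ∉ Z → SmoothNear f x ∧ (LocDiff f x ∨ RankLeOne f x)

/-- `y` is a regular value of `f`, off `Z` -/
def RegularValue (f : M → N) (Z : Set N) (y : N) : Prop := y ∉ Z ∧ ∀ x, f x = y → LocDiff f x

end maps

section aux

open Pool.Agent.N550 Pool.Agent.N550.KH

theorem core_one (z : R4) : core 1 z = ‖up 1 3 z‖ ^ 2 := by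
  rw [EuclideanSpace.norm_sq_eq]
  simp [core]
  rfl

theorem core_two (z : R4) : core 2 z = ‖up 2 2 z‖ ^ 2 := by
  rw [EuclideanSpace.norm_sq_eq, Fin.sum_univ_two]
  simp [core, Fin.sum_univ_four]
  rfl

theorem cocore_one (z : R4) : cocore 1 z = ‖vp 1 3 z‖ ^ 2 := by
  rw [EuclideanSpace.norm_sq_eq, Fin.sum_univ_three]
  simp [cocore, Fin.sum_univ_four]
  rfl

theorem cocore_two (z : R4) : cocore 2 z = ‖vp 2 2 z‖ ^ 2 := by
  rw [EuclideanSpace.norm_sq_eq, Fin.sum_univ_two]
  simp [cocore, Fin.sum_univ_four]
  rfl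

theorem one_le_sq {x : ℝ} (hx : 0 ≤ x) : 1 ≤ x ^ 2 ↔ 1 ≤ x := one_le_sq_iff₀ hx

theorem sq_le_one' {x : ℝ} (hx : 0 ≤ x) : x ^ 2 ≤ 1 ↔ x ≤ 1 := sq_le_one_iff₀ hx

variable {N : Type}

theorem disc_one (h : R4 → N) :
    coreDisc 1 h = h '' {z : R4 | vp 1 3 z = 0 ∧ ‖up 1 3 z‖ ≤ 1} := by
  have : {z : R4 | core 1 z ≤ 1 ∧ cocore 1 z = 0} =
      {z : R4 | vp 1 3 z = 0 ∧ ‖up 1 3 z‖ ≤ 1} := by
    ext z
    simp only [mem_ofPred_eq]
    rw [core_one, cocore_one, sq_le_one' (norm_nonneg _), sq_eq_zero_iff, norm_eq_zero]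
    exact and_comm
  rw [coreDisc, this]

theorem disc_two (h : R4 → N) :
    coreDisc 2 h = h '' {z : R4 | vp 2 2 z = 0 ∧ ‖up 2 2 z‖ ≤ 1} := by
  have : {z : R4 | core 2 z ≤ 1 ∧ cocore 2 z = 0} =
      {z : R4 | vp 2 2 z = 0 ∧ ‖up 2 2 z‖ ≤ 1} := by
    ext z
    simp only [mem_ofPred_eq]
    rw [core_two, cocore_two, sq_le_one' (norm_nonneg _), sq_eq_zero_iff, norm_eq_zero]
    exact and_comm
  rw [coreDisc, this]

theorem handles [TopologicalSpace N] [ChartedSpace R4 N] (D : HighHandlesInCell N) :
    TS.Handles2 N D.a D.d D.b D.l D.K D.h D.c := by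
  have hsp : D.b '' closedBall 0 1 ∪ (⋃ i, coreDisc 1 (D.l i)) =
      D.b '' closedBall 0 1 ∪ (⋃ i, D.l i '' {z : R4 | vp 1 3 z = 0 ∧ ‖up 1 3 z‖ ≤ 1}) := by
    congr 1
    exact iUnion_congr fun i => disc_one _
  refine
    { b_inj := D.b_cell.1
      b_ld := D.b_cell.2
      l_inj := fun i => (D.l_handle i).1.1
      l_ld := fun i => (D.l_handle i).1.2
      l_att := fun i z => ?_
      l_dis := fun i j z w hij hcon => ?_
      K_cpt := D.K_compact
      K_cmp := fun O hO hsub => ?_
      h_inj := fun i => (D.h_handle i).1.1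
      h_ld := fun i => (D.h_handle i).1.2
      h_att := fun i z => ?_
      h_dis := fun i j z w hij hcon => ?_
      c_inj := D.c_cell.1
      c_ld := D.c_cell.2
      c_cmp := fun O hO hsub => ?_ }
  · rw [(D.l_handle i).2 z, core_one, one_le_sq (norm_nonneg _)]
  · exact disjoint_left.1 (D.l_disjoint i j hij) ⟨z, rfl⟩ ⟨w, hcon.symm⟩
  · refine D.K_compress O hO ?_
    rw [hsp]
    exact hsub
  · rw [(D.h_handle i).2 z, core_two, one_le_sq (norm_nonneg _)]
  · exact disjoint_left.1 (D.h_disjoint i j hij) ⟨z, rfl⟩ ⟨w, hcon.symm⟩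
  · refine D.c_compress O hO ?_
    have : (⋃ i, coreDisc 2 (D.h i)) =
        ⋃ i, D.h i '' {z : R4 | vp 2 2 z = 0 ∧ ‖up 2 2 z‖ ≤ 1} :=
      iUnion_congr fun i => disc_two _
    rw [this]
    exact hsub

end aux

section flat

open Pool.Agent.L0h29.RG

variable {M N : Type} [TopologicalSpace M] [ChartedSpace R4 M] [TopologicalSpace N]
  [ChartedSpace R4 N]

theorem flat_of_rank {f : M → N} {x : M} (hs : SmoothNear f x) (h : RankLeOne f x) :
    Flat 4 f x := by
  intro k hk g hg hsurj
  obtain ⟨v, hv⟩ := h
  have hfs : ContMDiffAt (𝓡 4) (𝓡 4) ∞ f x := hs.self_of_nhds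
  have hfd : MDifferentiableAt (𝓡 4) (𝓡 4) f x := hfs.mdifferentiableAt (by simp)
  have hgd : MDifferentiableAt (𝓡 4) (𝓡 k) g (f x) := hg.mdifferentiableAt (by simp)
  have h1 : mfderiv (𝓡 4) (𝓡 k) (fun y => g (f y)) x =
      (mfderiv (𝓡 4) (𝓡 k) g (f x)).comp (mfderiv (𝓡 4) (𝓡 4) f x) :=
    mfderiv_comp x hgd hfd
  have h2 : mfderiv (𝓡 4) (𝓡 4) f x = fderiv ℝ (inCharts f x) (chartAt R4 x x) := by
    have h3 : writtenInExtChartAt (𝓡 4) (𝓡 4) x f = inCharts f x := by
      ext y
      simp [writtenInExtChartAt, extChartAt, inCharts]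
    have h4 : range (𝓡 4) = univ := by simp
    rw [hfd.mfderiv, h3, h4, fderivWithin_univ]
    rfl
  -- the values are multiples of one vector
  let u : EuclideanSpace ℝ (Fin k) := (mfderiv (𝓡 4) (𝓡 k) g (f x) : R4 →L[ℝ] EuclideanSpace ℝ (Fin k)) v
  have h5 : ∀ z : EuclideanSpace ℝ (Fin k), ∃ t : ℝ, t • u = z := by
    intro z
    obtain ⟨w, hw⟩ := hsurj z
    obtain ⟨t, ht⟩ := hv w
    refine ⟨t, ?_⟩
    rw [← hw, h1, h2]
    show t • u = (mfderiv (𝓡 4) (𝓡 k) g (f x) : R4 →L[ℝ] EuclideanSpace ℝ (Fin k))
      (fderiv ℝ (inCharts f x) (chartAt R4 x x) w)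
    rw [ht]
    exact (map_smul _ t v).symm
  have h6 : Module.finrank ℝ (EuclideanSpace ℝ (Fin k)) ≤ 1 := finrank_le_one u h5
  rw [finrank_euclideanSpace_fin] at h6
  omega

theorem inw_of {f : M → N} {Z : Set N} [T2Space N] [IsManifold (𝓡 4) ∞ N] (hf : Continuous f)
    (hZ : IsClosed Z) (hZ0 : AreaZero Z) (h : CriticalRankLeOne f Z) : Inw 4 f Z :=
  ⟨hf, hZ, Pool.Agent.L0h29.CS.NullC2.nullH2 hZ0, fun x hx => (h x hx).1, fun x hx =>
    (h x hx).2.imp id (flat_of_rank (h x hx).1)⟩

omit [TopologicalSpace M] [ChartedSpace R4 M] [TopologicalSpace N] [ChartedSpace R4 N] in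
theorem encard_of_cnt {f : M → N} {y : N} {k : ℕ} (hfin : (f ⁻¹' {y}).Finite)
    (h : cnt f y = k) : (f ⁻¹' {y}).encard = k := by
  rw [← hfin.cast_ncard_eq]
  exact congrArg _ h

end flat

open Pool.Agent.L0h29.RG

theorem splits (N : Type) [TopologicalSpace N] [CompactSpace N] [T2Space N] [ChartedSpace R4 N]
    [IsManifold (𝓡 4) ∞ N] (c : R4 → N) (hc : Injective c)
    (hcl : ∀ z, Pool.Agent.Y522.LD 4 c z) (hcr : range c ≠ univ) :
    ∀ (k : ℕ) (M : Type) [TopologicalSpace M] [ChartedSpace R4 M] [CompactSpace M] [T2Space M]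
      [ConnectedSpace M] [IsManifold (𝓡 4) ∞ M], Sheets 4 N (c 0) k M → SplitsOff N k M := by
  intro k
  induction k with
  | zero => intros; trivial
  | succ k ih =>
    intro M _ _ _ _ _ _ h
    obtain ⟨P, tP, cP, h1, h2, h3, h4, h5, h6⟩ := split (n := 4) (by norm_num) k c hc hcl hcr h
    exact ⟨P, tP, cP, ⟨h1, h2, h3, h4⟩, h5, ih P h6⟩

theorem joins (N : Type) [TopologicalSpace N] [CompactSpace N] [T2Space N] [ChartedSpace R4 N]
    [ConnectedSpace N] [IsManifold (𝓡 4) ∞ N] :
    ∀ (k : ℕ) (M : Type) [TopologicalSpace M] [ChartedSpace R4 M], SplitsOff N k M →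
      ∃ (g : M → N) (y₀ : N), NF g y₀ k := by
  intro k
  induction k with
  | zero =>
    intro M _ _ _
    exact ⟨_, _, NF_const (Classical.arbitrary N)⟩
  | succ k ih =>
    intro M _ _ h
    obtain ⟨M₁, t₁, c₁, h1, h2, h3⟩ := h
    obtain ⟨g, y₀, hg⟩ := ih M₁ h3
    have := h1.compact
    have := h1.hausdorff
    have := h1.connected
    have := h1.smooth
    exact join hg h2

/-- **The theorem.** Let `M`, `N` be closed smooth 4-manifolds, where `M` is connected and `N` is
simply connected, and the handles of index at least three of `N` lie in an open cell.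

(1) Let `f : M → N` be continuous and let `Z ⊆ N` be a closed set with two-dimensional Hausdorff
measure zero such that, at the points which are not mapped to `Z`, the map `f` is of class `C^∞` and
its critical points have rank at most one (for example, `Z` is empty, and `f` is of class `C^∞` with
all critical points of rank at most one). Then there is `k` such that every regular value off `Z`
has exactly `k` preimages (and there is such a regular value), and `M` is a connected sum of `k`
copies of `N` and a closed connected smooth 4-manifold.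

(2) Conversely, if `M` is a connected sum of `k` copies of `N` and a closed connected smooth
4-manifold, then there is a map `f : M → N` of class `C^∞` and a point `y₀` of `N` such that all
points different from `y₀` are regular values with exactly `k` preimages. -/
theorem result (M N : Type) [TopologicalSpace M] [CompactSpace M] [T2Space M] [ConnectedSpace M]
    [ChartedSpace R4 M] [IsManifold (𝓡 4) ∞ M] [TopologicalSpace N] [CompactSpace N] [T2Space N]
    [ChartedSpace R4 N] [IsManifold (𝓡 4) ∞ N] [SimplyConnectedSpace N]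
    (D : HighHandlesInCell N) :
    (∀ (f : M → N) (Z : Set N), Continuous f → IsClosed Z → AreaZero Z → CriticalRankLeOne f Z →
      ∃ k : ℕ, (∃ y, RegularValue f Z y) ∧
        (∀ y, RegularValue f Z y → (f ⁻¹' {y}).encard = k) ∧ SplitsOff N k M) ∧
    ∀ k : ℕ, SplitsOff N k M →
      ∃ (f : M → N) (y₀ : N), SmoothEverywhere f ∧ (∀ x, f x ≠ y₀ → LocDiff f x) ∧
        ∀ y, y ≠ y₀ → (f ⁻¹' {y}).encard = k := by
  constructor
  · intro f Z hf hZ hZ0 hr
    have hI : Inw 4 f Z := inw_of hf hZ hZ0 hr
    have hcr : range D.c ≠ univ :=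
      Pool.Agent.N550.TS.Fin2.range_ne_univ D.c D.c_cell.1 D.c_cell.2
    obtain ⟨g, k, h1, h2, h3, h4⟩ := normal M N D.a D.d D.b D.l D.K D.h D.c (handles D) f Z hI
    obtain ⟨κ, R, hR, hκ, hκR⟩ := amb M N D.a D.d D.b D.l D.K D.h D.c (handles D) f Z hI
    have hsc := simplyConnected_compl (n := 4) (by norm_num) (openEmb D.c_cell.1 D.c_cell.2)
    refine ⟨k, ?_, fun y hy => ?_, ?_⟩
    · obtain ⟨y, hy⟩ := (ne_univ_iff_exists_notMem _).1 hcr
      obtain ⟨y', hy', -⟩ := hκR y fun ⟨z, _, hz⟩ => hy ⟨z, hz⟩
      exact ⟨y', hy'⟩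
    · exact encard_of_cnt (fiber_finite hf fun x hx => hy.2 x hx) (h4 y hy)
    · have hgc : Continuous g := continuous_iff_continuousAt.2 fun x => (h1 x).continuousAt
      obtain ⟨y₁, hy₁⟩ := (ne_univ_iff_exists_notMem _).1 hcr
      exact splits N D.c D.c_cell.1 D.c_cell.2 hcr k M
        (sheets_of_map hgc h2 h3 ⟨y₁, fun h => hy₁ ⟨0, h.symm⟩⟩)
  · intro k hk
    have : ConnectedSpace N := inferInstance
    obtain ⟨g, y₀, hg⟩ := joins N k M hk
    exact ⟨g, y₀, fun x => hg.sm x, hg.ld, fun y hy => encard_of_cnt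
      (fiber_finite hg.cont fun x hx => hg.ld x (by rw [hx]; exact hy)) (hg.ct y hy)⟩

end Pool.Agent.L0h29.Old.RankOneCritical
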